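import Pool.Agent.P.MP_7ad5cd_lc.Main

open Cardinal Set

universe u

theorem Pool.Agent.Results.MP_7ad5cd_lc.SmallCofinality.result :
    ∀ lam : Cardinal.{u}, lam.IsSingular →
      (∃ S : Set (Set lam.ord.ToType), #S ≤ Order.succ lam ∧ (∀ s ∈ S, #s < lam) ∧
        ∀ b : Set lam.ord.ToType, #b < lam → ∃ s ∈ S, b ⊆ s) →
      ∀ θ : Cardinal.{u}, 0 < θ → θ ≤ lam.ord.cof →
        ∃ c : (Order.succ lam).ord.ToType → lam.ord.ToType → θ.ord.ToType,
          ∀ (A : Set (Order.succ lam).ord.ToType) (B : Set lam.ord.ToType),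
            #A = Order.succ lam → #B = lam → ∀ t, ∃ α ∈ A, ∃ β ∈ B, c α β = t :=
  Pool.Agent.P.MP_7ad5cd_lc.main
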